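import Mathlib
import Pool.Agent.H24ML.Final

/-!
# The upper bound in Malle's conjecture: only large degrees matter

Notation. `K` is a number field, `G ≤ S_n` is transitive, `ind g` is `n` minus the number of cycles of `g`,
`m(G)` is the minimum of `ind g` over `1 ≠ g ∈ G`, `a(G) = 1 / m(G)`, and `N_{n,K}(X;G)` is the number of
extensions `L` of degree `n` of `K` in an algebraic closure with the permutation group `G` and with
relative discriminant of norm at most `X` (that is, `|disc L| ≤ X |disc K| ^ n`).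

The three parts of the theorem.

1. Let `β > 0`. If `N_{m,K}(X;G') = O(X ^ (β n / m))` for all transitive `G' ≤ S_m` which embed (as abstract
   groups) in a power `G^k`, satisfy `m(G') / m ≥ m(G) / n` and have degree `m ≥ D`, for some `D`,
   then `N_{n,K}(X;G) = O(X ^ β)`. (For a field of degree `m` the bound `X ^ (β n / m)` is `R ^ (β n)`
   in terms of the root discriminant `R`, and the weak form of Malle's conjecture predicts an exponent
   `a(G') ≤ n a(G) / m` for these groups.)
2. For every constant `c > 0`: the bound `N_{m,ℚ}(X;G') = O(X ^ (c a(G')))` holds for all transitive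
   groups `G' ≤ S_m` of degree `m ≥ D`, for some `D`, if and only if `N_{n,K}(X;G) = O(X ^ (c a(G)))` holds
   for all number fields `K` and all transitive `G ≤ S_n`, `n ≥ 2`. There is no loss in the constant `c`.
3. The upper bound in the weak form of Malle's conjecture, for all `K`, all `G` and all `ε`, is equivalent
   to the following asymptotic statement over `ℚ`: for every `c > 1` there is a `D` such that
   `N_{m,ℚ}(X;G') = O(X ^ (c a(G')))` for all transitive `G' ≤ S_m` with `m ≥ D`.

Proof: to `k` different fields `L_1, …, L_k` counted by `N_{n,K}(X;G)` attach the compositum `M`. If `M` has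
degree `m` then `|disc M| ≤ ∏ |disc L_i| ^ (m / n)`, up to the power of `disc K` (proved by means of
Minkowski's lattice: orders and determinants; no tame hypothesis), the group of `M` embeds in `G^k`, every
non-trivial element of it has index at least `m m(G) / n` (the fixed points and orbits of a pointwise stabiliser),
and `M` has at most `2 ^ (m²)` subfields. So `m` is large if `k` is, and `N_{n,K}(X;G) ^ k` is at most a constant
times the number of these `M`, which is `O((X ^ (k m / n)) ^ (β n / m)) = O(X ^ (k β))`. For the second part the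
composita are taken over `ℚ`.
-/

set_option autoImplicit false

namespace Pool.Agent.Results.MP_af4c59_nt.UpperBoundAmplification

open Module NumberField

/-- The index of a permutation of `n` points: `n` minus the number of its cycles, fixed points included. -/
noncomputable def ind {n : ℕ} (g : Equiv.Perm (Fin n)) : ℕ :=
  n - Nat.card (Quotient (Equiv.Perm.SameCycle.setoid g))

/-- The least index of an element `≠ 1` of `G`. -/
noncomputable def minInd {n : ℕ} (G : Subgroup (Equiv.Perm (Fin n))) : ℕ :=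
  sInf {j : ℕ | ∃ g ∈ G, g ≠ 1 ∧ j = ind g}

/-- Malle's constant `a(G)`. -/
noncomputable def a {n : ℕ} (G : Subgroup (Equiv.Perm (Fin n))) : ℝ := 1 / (minInd G : ℝ)

/-- Transitive groups. -/
def Transitive {n : ℕ} (G : Subgroup (Equiv.Perm (Fin n))) : Prop :=
  ∀ i j : Fin n, ∃ g ∈ G, g i = j

/-- The extensions `L` of degree `n` of `K` in the algebraic closure of `K`, for which the Galois group acts
on the `n` embeddings of `L`, suitably numbered, as the group `G`, and whose relative discriminant has norm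
at most `X`, that is, `|disc L| ≤ X |disc K| ^ n`. -/
def Fields (K : Type) [Field K] [NumberField K] (n : ℕ) (G : Subgroup (Equiv.Perm (Fin n))) (X : ℝ) :
    Set (IntermediateField K (AlgebraicClosure K)) :=
  {L | finrank K L = n ∧
    (∃ e : (L →ₐ[K] AlgebraicClosure K) ≃ Fin n, ∀ π : Equiv.Perm (Fin n),
      π ∈ G ↔ ∃ σ : AlgebraicClosure K ≃ₐ[K] AlgebraicClosure K,
        ∀ φ : L →ₐ[K] AlgebraicClosure K, e (σ.toAlgHom.comp φ) = π (e φ)) ∧
    ∃ h : NumberField L, ((|@discr L _ h| : ℤ) : ℝ) ≤ X * ((|discr K| : ℤ) : ℝ) ^ n}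

/-- Their number `N_{n,K}(X;G)`. -/
noncomputable def N (K : Type) [Field K] [NumberField K] (n : ℕ) (G : Subgroup (Equiv.Perm (Fin n)))
    (X : ℝ) : ℕ := (Fields K n G X).ncard

/-- `N_{n,K}(X;G) = O(X ^ β)`. -/
def Bound (K : Type) [Field K] [NumberField K] (n : ℕ) (G : Subgroup (Equiv.Perm (Fin n))) (β : ℝ) :
    Prop := ∃ C : ℝ, ∀ X : ℝ, 1 ≤ X → (N K n G X : ℝ) ≤ C * X ^ β

/-- Part 1: the transitive groups of large degree inside the powers of `G`. -/
def InsidePowers : Prop :=
  ∀ (K : Type) [Field K] [NumberField K] (n : ℕ) (G : Subgroup (Equiv.Perm (Fin n))),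
    2 ≤ n → Transitive G → ∀ (β : ℝ), 0 < β → ∀ D : ℕ,
    (∀ m ≥ D, ∀ G' : Subgroup (Equiv.Perm (Fin m)), Transitive G' →
      (∃ (k : ℕ) (f : G' →* (Fin k → G)), Function.Injective f) →
      m * minInd G ≤ n * minInd G' → Bound K m G' (β * n / m)) → Bound K n G β

/-- Part 2: for every `c > 0` the bound `O(X ^ (c a(G)))` over `ℚ` in all large degrees is equivalent to the
same bound over all number fields in all degrees. -/
def SameConstant : Prop :=
  ∀ c : ℝ, 0 < c →
    ((∃ D : ℕ, ∀ m ≥ D, ∀ G' : Subgroup (Equiv.Perm (Fin m)), Transitive G' →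
        Bound ℚ m G' (c * a G')) ↔
      ∀ (K : Type) [Field K] [NumberField K] (n : ℕ) (G : Subgroup (Equiv.Perm (Fin n))),
        2 ≤ n → Transitive G → Bound K n G (c * a G))

/-- The upper bound in the weak form of Malle's conjecture. -/
def MalleUpper : Prop :=
  ∀ (K : Type) [Field K] [NumberField K] (n : ℕ) (G : Subgroup (Equiv.Perm (Fin n))),
    2 ≤ n → Transitive G → ∀ ε : ℝ, 0 < ε → ∃ c₂ : ℝ, 0 < c₂ ∧ ∃ X₀ : ℝ, ∀ X : ℝ, X₀ ≤ X →
      (N K n G X : ℝ) < c₂ * X ^ (a G + ε)

/-- Its asymptotic form over `ℚ`. -/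
def MalleUpperLargeDegree : Prop :=
  ∀ c : ℝ, 1 < c → ∃ D : ℕ, ∀ m ≥ D, ∀ G' : Subgroup (Equiv.Perm (Fin m)), Transitive G' →
    Bound ℚ m G' (c * a G')

theorem minInd_eq {n : ℕ} (G : Subgroup (Equiv.Perm (Fin n))) : minInd G = Pool.Agent.H24ML.minInd G :=
  rfl

theorem a_eq {n : ℕ} (G : Subgroup (Equiv.Perm (Fin n))) : a G = Pool.Agent.H24ML.aG G := rfl

theorem N_eq (K : Type) [Field K] [NumberField K] (n : ℕ) (G : Subgroup (Equiv.Perm (Fin n)))
    (X : ℝ) : N K n G X = Pool.Agent.H24ML.NF K n G X := rfl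

theorem insidePowers : InsidePowers := by
  intro K _ _ n G hn hG β hβ D h
  refine Pool.Agent.H24ML.bound_pow_gen hβ K (by omega) (max D 2) ?_
  intro m hm G' hG' hemb hind
  refine h m ((le_max_left _ _).trans hm) G' hG' hemb ?_
  have hm2 : 2 ≤ m := (le_max_right _ _).trans hm
  obtain ⟨g0, hg0, hg01⟩ := Pool.Agent.H24ML.exists_ne hm2 hG'
  have hne : {j : ℕ | ∃ g ∈ G', g ≠ 1 ∧ j = m - Pool.Agent.H24ML.cyc g}.Nonempty :=
    ⟨_, g0, hg0, hg01, rfl⟩
  obtain ⟨g, hg, hg1, hg2⟩ := Nat.sInf_mem hne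
  have h2 : Pool.Agent.H24ML.minInd G' = m - Pool.Agent.H24ML.cyc g := hg2
  rw [minInd_eq, minInd_eq, h2]
  exact hind g hg hg1

theorem sameConstant : SameConstant := by
  intro c hc
  constructor
  · rintro ⟨D, hD⟩ K _ _ n G hn hG
    exact Pool.Agent.H24ML.bound_of_rat hc K hn hG D hD
  · intro h
    exact ⟨2, fun m hm G' hG' => h ℚ m G' hm hG'⟩

theorem finite (K : Type) [Field K] [NumberField K] (n : ℕ) (G : Subgroup (Equiv.Perm (Fin n)))
    (X : ℝ) : (Fields K n G X).Finite :=
  (Pool.Agent.H24ML.fin_rat (k := K) (Ω := AlgebraicClosure K)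
    (X * ((|discr K| : ℤ) : ℝ) ^ n)).subset fun _ hL => hL.2.2

theorem N_mono (K : Type) [Field K] [NumberField K] (n : ℕ) (G : Subgroup (Equiv.Perm (Fin n)))
    {X Y : ℝ} (h : X ≤ Y) : N K n G X ≤ N K n G Y := by
  refine Set.ncard_le_ncard ?_ (finite K n G Y)
  rintro L ⟨h1, h2, h3, h4⟩
  refine ⟨h1, h2, h3, h4.trans (mul_le_mul_of_nonneg_right h (by positivity))⟩

theorem malleUpper_iff : MalleUpper ↔ MalleUpperLargeDegree := by
  constructor
  · intro h c hc
    refine ⟨2, fun m hm G' hG' => ?_⟩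
    have ha : 0 < a G' := Pool.Agent.H24ML.aG_pos hm hG'
    obtain ⟨c₂, hc₂, X₀, h1⟩ := h ℚ m G' hm hG' ((c - 1) * a G')
      (mul_pos (by linarith) ha)
    refine ⟨c₂ + N ℚ m G' X₀, fun X hX => ?_⟩
    have hp : 1 ≤ X ^ (c * a G') := Real.one_le_rpow hX (by positivity)
    have h0 : (0 : ℝ) ≤ N ℚ m G' X₀ := Nat.cast_nonneg _
    by_cases hXX : X₀ ≤ X
    · have h2 := (h1 X hXX).le
      rw [show a G' + (c - 1) * a G' = c * a G' by ring] at h2
      have h3 : 0 ≤ (N ℚ m G' X₀ : ℝ) * X ^ (c * a G') := by positivity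
      linarith
    · rw [not_le] at hXX
      have h2 : (N ℚ m G' X : ℝ) ≤ N ℚ m G' X₀ := by exact_mod_cast N_mono ℚ m G' hXX.le
      have h3 : (N ℚ m G' X₀ : ℝ) * 1 ≤ N ℚ m G' X₀ * X ^ (c * a G') :=
        mul_le_mul_of_nonneg_left hp h0
      have h4 : 0 ≤ c₂ * X ^ (c * a G') := by positivity
      linarith
  · intro h K _ _ n G hn hG ε hε
    have ha : 0 < a G := Pool.Agent.H24ML.aG_pos hn hG
    have hc : 1 < 1 + ε / a G := by
      have : 0 < ε / a G := by positivity
      linarith
    obtain ⟨C, hC⟩ := (sameConstant (1 + ε / a G) (by linarith)).1 (h _ hc) K n G hn hG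
    rw [show (1 + ε / a G) * a G = a G + ε by field_simp] at hC
    refine ⟨|C| + 1, by positivity, 1, fun X hX => ?_⟩
    have hp : 0 < X ^ (a G + ε) := Real.rpow_pos_of_pos (by linarith) _
    calc (N K n G X : ℝ) ≤ C * X ^ (a G + ε) := hC X hX
      _ ≤ |C| * X ^ (a G + ε) := mul_le_mul_of_nonneg_right (le_abs_self _) hp.le
      _ < (|C| + 1) * X ^ (a G + ε) := by linarith

/-- The three parts. -/
theorem result : InsidePowers ∧ SameConstant ∧ (MalleUpper ↔ MalleUpperLargeDegree) :=
  ⟨insidePowers, sameConstant, malleUpper_iff⟩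

end Pool.Agent.Results.MP_af4c59_nt.UpperBoundAmplification
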